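import Pool.Agent.R612.HG.Graph

/-!
# Every model of ACFO interprets a random `(n + 1)`-hypergraph for every `n > 0`

The definitions (`IsACFO`, the groups `𝕌_(p)`, the theories `T_{m,p}`, multiplicatively large
quasi-affine varieties, the density axiom, random hypergraphs and interpretations) are those of
`Pool.Agent.R612.HG.Defs`.

The universe of the hypergraph is `(F^×)^2`, ordered lexicographically.  For sorted elements
`x_0, ..., x_n` (the largest one first) let `h(x) = x_0(1) + ∑ c_l x_0(0)^l`, where the `c_l` are the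
`2 n` coordinates of `x_1, ..., x_n`; the relation is `h(x) < e` for a fixed `e > 1`.  The curves
`(v_0, v_1) ↦ (v_0, h(v, a_1), ..., h(v, a_k))` are multiplicatively large for distinct `n`-subsets
`a_i`, so the extension property is a consequence of the density axiom.
-/

set_option autoImplicit false

universe u

namespace Pool.Agent.Results.MP_224b2b_lc.AllHypergraphs

open FirstOrder FirstOrder.Language Pool.Agent.R612.HG

section def_lemmas

variable {F : Type u} [Field F] (lt : Fˣ → Fˣ → Prop) (P : (n : ℕ) → Fin n → Fˣ → Prop)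

/-- the function `f` is given by a term with parameters -/
def IsTm {α : Type} (f : (α → F) → F) : Prop :=
  letI := strC lt P
  ∃ t : (LC[[(Set.univ : Set F)]]).Term α, ∀ v, t.realize v = f v

theorem isTm_var {α : Type} (i : α) : IsTm lt P (fun v : α → F => v i) := by
  let _ := strC lt P
  exact ⟨Term.var i, fun v => rfl⟩

theorem isTm_const {α : Type} (c : F) : IsTm lt P (fun _ : α → F => c) := by
  let _ := strC lt P
  exact ⟨(LC.con (⟨c, Set.mem_univ c⟩ : (Set.univ : Set F))).term, fun v => by simp⟩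

theorem isTm_add {α : Type} {f g : (α → F) → F} (hf : IsTm lt P f) (hg : IsTm lt P g) :
    IsTm lt P (fun v => f v + g v) := by
  let _ := strC lt P
  obtain ⟨s, hs⟩ := hf
  obtain ⟨t, ht⟩ := hg
  refine ⟨Term.func ((LC.lhomWithConstants (Set.univ : Set F)).onFunction
    (FunC.add : LC.Functions 2)) ![s, t], fun v => ?_⟩
  show s.realize v + t.realize v = f v + g v
  rw [hs, ht]

theorem isTm_mul {α : Type} {f g : (α → F) → F} (hf : IsTm lt P f) (hg : IsTm lt P g) :
    IsTm lt P (fun v => f v * g v) := by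
  let _ := strC lt P
  obtain ⟨s, hs⟩ := hf
  obtain ⟨t, ht⟩ := hg
  refine ⟨Term.func ((LC.lhomWithConstants (Set.univ : Set F)).onFunction
    (FunC.mul : LC.Functions 2)) ![s, t], fun v => ?_⟩
  show s.realize v * t.realize v = f v * g v
  rw [hs, ht]

theorem isTm_pow {α : Type} {f : (α → F) → F} (hf : IsTm lt P f) (n : ℕ) :
    IsTm lt P (fun v => f v ^ n) := by
  induction n with
  | zero => simpa using isTm_const lt P (α := α) 1
  | succ n ih => simpa [pow_succ] using isTm_mul lt P ih hf

theorem isTm_sum {α ι : Type} (s : Finset ι) {f : ι → (α → F) → F}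
    (hf : ∀ i ∈ s, IsTm lt P (f i)) : IsTm lt P (fun v => ∑ i ∈ s, f i v) := by
  classical
  induction s using Finset.induction_on with
  | empty => simpa using isTm_const lt P (α := α) 0
  | insert a s ha ih =>
    have h1 := isTm_add lt P (hf a (Finset.mem_insert_self a s))
      (ih fun i hi => hf i (Finset.mem_insert_of_mem hi))
    simpa [Finset.sum_insert ha] using h1

theorem def_eq {α : Type} {f g : (α → F) → F} (hf : IsTm lt P f) (hg : IsTm lt P g) :
    @Set.Definable F Set.univ LC (strC lt P) α {v | f v = g v} := by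
  let _ := strC lt P
  obtain ⟨s, hs⟩ := hf
  obtain ⟨t, ht⟩ := hg
  refine ⟨Term.equal s t, ?_⟩
  ext v
  simp only [Set.mem_ofPred_eq, Formula.realize_equal, hs, ht]

theorem def_lt {α : Type} {f g : (α → F) → F} (hf : IsTm lt P f) (hg : IsTm lt P g) :
    @Set.Definable F Set.univ LC (strC lt P) α {v | ltR lt (f v) (g v)} := by
  let _ := strC lt P
  obtain ⟨s, hs⟩ := hf
  obtain ⟨t, ht⟩ := hg
  refine ⟨Relations.formula₂ ((LC.lhomWithConstants (Set.univ : Set F)).onRelation
    (Rel.lt : LC.Relations 2)) s t, ?_⟩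
  ext v
  rw [Set.mem_ofPred_eq, Set.mem_ofPred_eq, Formula.realize_rel₂, ← hs, ← ht]
  exact Iff.rfl

theorem isTm_hh {n : ℕ} (σ : Fin (n + 1) → Fin (n + 1)) :
    IsTm lt P (fun w : Fin (n + 1) × Fin 2 → F => hh fun i j => w (σ i, j)) := by
  have e : (fun w : Fin (n + 1) × Fin 2 → F => hh fun i j => w (σ i, j)) = fun w =>
      w (σ 0, 1) + ∑ i : Fin n, ∑ j : Fin 2, w (σ i.succ, j) * w (σ 0, 0) ^ (2 * (i : ℕ) + j) := by
    funext w
    rw [hh, qpoly, Polynomial.eval_finsetSum]
    congr 1
    refine Finset.sum_congr rfl fun i _ => ?_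
    rw [Polynomial.eval_finsetSum]
    refine Finset.sum_congr rfl fun j _ => ?_
    rw [Polynomial.eval_monomial]
  rw [e]
  refine isTm_add lt P (isTm_var lt P _) (isTm_sum lt P _ fun i _ => isTm_sum lt P _ fun j _ => ?_)
  exact isTm_mul lt P (isTm_var lt P _) (isTm_pow lt P (isTm_var lt P _) _)

theorem def_prec {α : Type} (a b : Fin 2 → α) :
    @Set.Definable F Set.univ LC (strC lt P) α
      {w | prec lt (fun j => w (a j)) (fun j => w (b j))} := by
  let _ := strC lt P
  have h1 := def_lt lt P (isTm_var lt P (b 0)) (isTm_var lt P (a 0))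
  have h2 := def_eq lt P (isTm_var lt P (a 0)) (isTm_var lt P (b 0))
  have h3 := def_lt lt P (isTm_var lt P (b 1)) (isTm_var lt P (a 1))
  exact h1.union (h2.inter h3)

theorem def_RR (e : F) (n : ℕ) :
    @Set.Definable F Set.univ LC (strC lt P) (Fin (n + 1) × Fin 2)
      {w | RR lt e fun i j => w (i, j)} := by
  let _ := strC lt P
  have h1 : {w : Fin (n + 1) × Fin 2 → F | RR lt e fun i j => w (i, j)} =
      ⋃ σ : Equiv.Perm (Fin (n + 1)),
        ((⋂ p : Fin (n + 1) × Fin (n + 1), {w : Fin (n + 1) × Fin 2 → F | p.1 < p.2 →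
          prec lt (fun j => w (σ p.1, j)) (fun j => w (σ p.2, j))}) ∩
        {w : Fin (n + 1) × Fin 2 → F | ltR lt (hh fun i j => w (σ i, j)) e}) := by
    ext w
    simp only [Set.mem_ofPred_eq, Set.mem_iUnion, Set.mem_inter_iff, Set.mem_iInter, RR, Prod.forall]
  rw [h1]
  refine Set.definable_iUnion_of_finite fun σ => ?_
  refine Set.Definable.inter (Set.definable_iInter_of_finite fun p => ?_)
    (def_lt lt P (isTm_hh lt P σ) (isTm_const lt P e))
  by_cases hp : p.1 < p.2
  · have h2 := def_prec lt P (fun j => (σ p.1, j)) (fun j => (σ p.2, j))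
    refine (congrArg (fun s => Set.Definable Set.univ LC s) ?_).mp h2
    ext w
    simp [hp]
  · refine (congrArg (fun s => Set.Definable Set.univ LC s) ?_).mp Set.definable_univ
    ext w
    simp [hp]

end def_lemmas

/-- **Full (positive) answer to Q1.** Every model `M = (F; <, 𝒫)` of ACFO interprets, for every
`n > 0`, a random `(n + 1)`-hypergraph. -/
theorem result (F : Type u) [Field F] (lt : Fˣ → Fˣ → Prop) (P : (n : ℕ) → Fin n → Fˣ → Prop)
    (h : IsACFO F lt P) (n : ℕ) (hn : 0 < n) :
    InterpretsRandomHypergraph LC F (strC lt P) n := by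
  classical
  let _ := strC lt P
  obtain ⟨e, he⟩ := h.ordFacts.noMax 1
  let D : Set (Fin 2 → F) := {v | ∀ i, v i ≠ 0}
  have hDdef : @Set.Definable F Set.univ LC (strC lt P) (Fin 2) D := by
    have h1 : D = ⋂ i : Fin 2, {v : Fin 2 → F | v i = 0}ᶜ := by
      ext v
      simp [D]
    rw [h1]
    exact Set.definable_iInter_of_finite fun i =>
      (def_eq lt P (isTm_var lt P i) (isTm_const lt P 0)).compl
  have hDdef' : ∀ (k : ℕ) (j : Fin k), @Set.Definable F Set.univ LC (strC lt P) (Fin k × Fin 2)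
      {w | (fun i => w (j, i)) ∈ D} := fun k j =>
    hDdef.preimage_comp (fun i : Fin 2 => (j, i))
  let E : Setoid D := ⊥
  let val : Quotient E → Fin 2 → F := fun x => (Quotient.lift (fun d : D => d.1)
    (fun a b hab => congrArg Subtype.val (hab : a = b)) x : Fin 2 → F)
  have hval_mk : ∀ d : D, val (Quotient.mk E d) = d.1 := fun d => rfl
  refine ⟨2, D, E, fun x => RR lt (e : F) fun i => val (x i), hDdef, ?_, ?_, ?_⟩
  · have h1 : {w : Fin 2 × Fin 2 → F | ∃ (h₀ : (fun i => w (0, i)) ∈ D)
        (h₁ : (fun i => w (1, i)) ∈ D), E ⟨_, h₀⟩ ⟨_, h₁⟩} =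
        ({w | (fun i => w (0, i)) ∈ D} ∩ {w | (fun i => w (1, i)) ∈ D}) ∩
          ⋂ i : Fin 2, {w : Fin 2 × Fin 2 → F | w (0, i) = w (1, i)} := by
      ext w
      simp only [Set.mem_ofPred_eq, Set.mem_inter_iff, Set.mem_iInter]
      constructor
      · rintro ⟨h₀, h₁, h2⟩
        have h3 : (⟨_, h₀⟩ : D) = ⟨_, h₁⟩ := h2
        exact ⟨⟨h₀, h₁⟩, fun i => congrFun (congrArg Subtype.val h3) i⟩
      · rintro ⟨⟨h₀, h₁⟩, h2⟩
        refine ⟨h₀, h₁, ?_⟩
        show (⟨_, h₀⟩ : D) = ⟨_, h₁⟩
        exact Subtype.ext (funext h2)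
    rw [h1]
    exact ((hDdef' 2 0).inter (hDdef' 2 1)).inter (Set.definable_iInter_of_finite fun i =>
      def_eq lt P (isTm_var lt P _) (isTm_var lt P _))
  · have h1 : {w : Fin (n + 1) × Fin 2 → F | ∃ h : ∀ j, (fun i => w (j, i)) ∈ D,
        RR lt (e : F) fun j => val (Quotient.mk E ⟨_, h j⟩)} =
        (⋂ j : Fin (n + 1), {w : Fin (n + 1) × Fin 2 → F | (fun i => w (j, i)) ∈ D}) ∩
          {w | RR lt (e : F) fun i j => w (i, j)} := by
      ext w
      simp only [Set.mem_ofPred_eq, Set.mem_inter_iff, Set.mem_iInter]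
      exact ⟨fun ⟨h2, h3⟩ => ⟨h2, h3⟩, fun ⟨h2, h3⟩ => ⟨h2, h3⟩⟩
    refine (congrArg (fun s => Set.Definable Set.univ LC s) h1.symm).mp ?_
    exact (Set.definable_iInter_of_finite fun j => hDdef' (n + 1) j).inter (def_RR lt P _ n)
  · refine random h he val ?_ ?_ ?_ hn
    · intro x y
      refine Quotient.inductionOn₂ x y fun a b hab => ?_
      rw [hval_mk, hval_mk] at hab
      rw [Subtype.ext hab]
    · intro x
      refine Quotient.inductionOn x fun a i => ?_
      rw [hval_mk]
      exact a.2 i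
    · intro v
      exact ⟨Quotient.mk E ⟨fun i => (v i : F), fun i => (v i).ne_zero⟩, fun i => rfl⟩

end Pool.Agent.Results.MP_224b2b_lc.AllHypergraphs
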